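import Mathlib

set_option autoImplicit false

namespace Pool.Agent.Lib.MP_6b2d39_agHyU

private theorem DescU_pow (i m : ℕ) : (40 : ℝ) * 64 ^ (i + m) ≤ 2 ^ (6 * i + 6 * m + 6) := by
  have e : (2 : ℝ) ^ (6 * i + 6 * m + 6) = 64 * 64 ^ (i + m) := by
    rw [show (64 : ℝ) = 2 ^ 6 by norm_num, ← pow_mul, ← pow_add]
    exact congrArg _ (by ring)
  rw [e]
  exact mul_le_mul_of_nonneg_right (by norm_num) (by positivity)

/-- HU4. numbers. (1) `40 * 64 ^ (i + 2) * 16 ^ (i + 3) ≤ 2 ^ (10 i + 30) ≤ K`.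
(2) `(16 ^ (i + 3) / Z) ^ (i + 2) ≤ (K / (40 * 64 ^ (i + 3)) / Z) ^ (i + 3)`: multiply by
`Z ^ (i + 3)`; `(K / 2 ^ (10 i + 32)) ^ (i + 3) ≥ (K / 2 ^ (10 J + 32)) ^ 3 ≥ Z`. -/
theorem desc_one {J i : ℕ} {K : ℝ} (hi : i ≤ J) (hK : 2 ^ (10 * J + 32) ≤ K) :
    16 ^ (i + 3) ≤ K / (40 * 64 ^ (i + 2)) := by
  rw [le_div_iff₀ (by positivity)]
  calc (16 : ℝ) ^ (i + 3) * (40 * 64 ^ (i + 2)) ≤ 16 ^ (i + 3) * 2 ^ (6 * i + 6 * 2 + 6) :=
        mul_le_mul_of_nonneg_left (DescU_pow i 2) (by positivity)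
    _ = 2 ^ (10 * i + 30) := by
        rw [show (16 : ℝ) = 2 ^ 4 by norm_num, ← pow_mul, ← pow_add]
        exact congrArg _ (by ring)
    _ ≤ 2 ^ (10 * J + 32) := pow_le_pow_right₀ (by norm_num) (by omega)
    _ ≤ K := hK

theorem desc_two {J i : ℕ} {Z K : ℝ} (hi : i + 1 ≤ J) (hZ : 1 ≤ Z)
    (hK : 2 ^ (10 * J + 32) ≤ K) (hK3 : (2 ^ (10 * J + 32)) ^ 3 * Z ≤ K ^ 3) :
    (16 ^ (i + 3) / Z) ^ (i + 2) ≤ (K / (40 * 64 ^ (i + 3)) / Z) ^ (i + 3) := by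
  have hZ0 : 0 < Z := by linarith
  obtain ⟨D, hD⟩ : ∃ D : ℝ, D = 2 ^ (10 * i + 32) := ⟨_, rfl⟩
  have hD0 : 0 < D := by rw [hD]; positivity
  have hDJ : D ≤ 2 ^ (10 * J + 32) := by
    rw [hD]
    exact pow_le_pow_right₀ (by norm_num) (by omega)
  have hK0 : 0 < K := hD0.trans_le (hDJ.trans hK)
  obtain ⟨q, hq⟩ : ∃ q : ℝ, q = K / D := ⟨_, rfl⟩
  have hqD : q * D = K := by rw [hq, div_mul_cancel₀ _ hD0.ne']
  have hq1 : 1 ≤ q := by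
    rw [hq, le_div_iff₀ hD0, one_mul]
    exact hDJ.trans hK
  have hq3 : Z ≤ q ^ 3 := by
    rw [hq, div_pow, le_div_iff₀ (by positivity), mul_comm]
    refine le_trans ?_ hK3
    exact mul_le_mul_of_nonneg_right (pow_le_pow_left₀ hD0.le hDJ 3) hZ0.le
  have hqi : Z ≤ q ^ (i + 3) := hq3.trans (pow_le_pow_right₀ hq1 (by omega))
  have h4 : q * 16 ^ (i + 2) ≤ K / (40 * 64 ^ (i + 3)) := by
    rw [le_div_iff₀ (by positivity)]
    calc q * 16 ^ (i + 2) * (40 * 64 ^ (i + 3))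
        ≤ q * 16 ^ (i + 2) * 2 ^ (6 * i + 6 * 3 + 6) :=
          mul_le_mul_of_nonneg_left (DescU_pow i 3) (by positivity)
      _ = q * D := by
          rw [hD, mul_assoc, show (16 : ℝ) = 2 ^ 4 by norm_num, ← pow_mul, ← pow_add]
          exact congrArg (fun n => q * (2 : ℝ) ^ n) (by ring)
      _ = K := hqD
  calc (16 ^ (i + 3) / Z) ^ (i + 2)
      = Z * (16 ^ (i + 2)) ^ (i + 3) / Z ^ (i + 3) := by
        rw [div_pow, ← pow_mul, ← pow_mul, show (i + 3) * (i + 2) = (i + 2) * (i + 3) by ring,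
          show Z ^ (i + 3) = Z * Z ^ (i + 2) by ring, mul_div_mul_left _ _ hZ0.ne']
    _ ≤ q ^ (i + 3) * (16 ^ (i + 2)) ^ (i + 3) / Z ^ (i + 3) :=
        div_le_div_of_nonneg_right (mul_le_mul_of_nonneg_right hqi (by positivity)) (by positivity)
    _ = (q * 16 ^ (i + 2) / Z) ^ (i + 3) := by rw [div_pow, mul_pow]
    _ ≤ (K / (40 * 64 ^ (i + 3)) / Z) ^ (i + 3) :=
        pow_le_pow_left₀ (by positivity) (div_le_div_of_nonneg_right h4 hZ0.le) _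

end Pool.Agent.Lib.MP_6b2d39_agHyU
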