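import Pool.Agent.Lib.MP_6b2d39_agHyU.LevelU
import Pool.Agent.Lib.MP_6b2d39_agHyU.DescU

set_option autoImplicit false

namespace Pool.Agent.Lib.MP_6b2d39_agHyU

open Pool.Agent.Lib.MP_6b2d39_agHx

/-- HU5. downward induction on `i` (`i + k = J`): `Λ ≤ K / 20 / 2 ^ (i + 1)`. Start `i = J`:
`cov_zero` with `η = (16 ^ (J + 3) / Z) ^ (J + 2)`, `cov_level_u` with `u = 16 ^ (J + 3)`,
`u' = K / (40 * 64 ^ (J + 2))`. Step: `desc_two`, `cov_mono`, `cov_level_u` with `u = 16 ^ (i + 3)`,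
`u' = K / (40 * 64 ^ (i + 2))` (`desc_one`); `2 * 32 ^ (i + 2) * u' = K / 20 / 2 ^ (i + 2)`. -/
theorem chain_u (J Z K : ℕ) (hZ : 1 ≤ Z) (hK : (2 : ℝ) ^ (10 * J + 32) ≤ K)
    (hK3 : ((2 : ℝ) ^ (10 * J + 32)) ^ 3 * Z ≤ (K : ℝ) ^ 3) (k : ℕ) : ∀ i : ℕ, i + k = J →
    ∃ Λ : ℕ, (Λ : ℝ) ≤ K / 20 / 2 ^ (i + 1) ∧
      Cov Z K Λ (((K : ℝ) / (40 * 64 ^ (i + 2)) / Z) ^ (i + 2))
        ((16 ^ (J + 3) / (Z : ℝ)) ^ (J + 2)) := by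
  have hK0 : (0 : ℝ) ≤ K := Nat.cast_nonneg K
  have hlev : ∀ i : ℕ, i ≤ J → ∀ Λ : ℕ,
      Cov Z K Λ ((16 ^ (i + 3) / (Z : ℝ)) ^ (i + 2)) ((16 ^ (J + 3) / (Z : ℝ)) ^ (J + 2)) →
      ∃ Λ' : ℕ, (Λ' : ℝ) ≤ Λ + K / 20 / 2 ^ (i + 2) ∧
        Cov Z K Λ' (((K : ℝ) / (40 * 64 ^ (i + 2)) / Z) ^ (i + 2))
          ((16 ^ (J + 3) / (Z : ℝ)) ^ (J + 2)) := by
    intro i hi Λ hc
    have h1 : (K : ℝ) / (40 * 64 ^ (i + 2)) ≤ 2 * K := by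
      have h2 : (1 : ℝ) ≤ 64 ^ (i + 2) := one_le_pow₀ (by norm_num)
      rw [div_le_iff₀ (by positivity)]
      nlinarith
    obtain ⟨Λ', h3, h4⟩ := cov_level_u i Z K Λ _ _ _ hZ le_rfl (desc_one hi hK) h1 hc
    refine ⟨Λ', h3.trans (le_of_eq ?_), h4⟩
    have h5 : (64 : ℝ) ^ (i + 2) = 32 ^ (i + 2) * 2 ^ (i + 2) := by
      rw [← mul_pow]
      norm_num
    rw [h5]
    field_simp
    ring
  induction k with
  | zero =>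
    intro i hi
    have hiJ : i = J := by omega
    subst hiJ
    obtain ⟨Λ, h1, h2⟩ := hlev i le_rfl 0 cov_zero
    refine ⟨Λ, h1.trans ?_, h2⟩
    rw [Nat.cast_zero, zero_add]
    apply div_le_div_of_nonneg_left (by positivity) (by positivity)
    exact pow_le_pow_right₀ (by norm_num) (by omega)
  | succ k ih =>
    intro i hi
    obtain ⟨Λ, h1, h2⟩ := ih (i + 1) (by omega)
    have hZ1 : (1 : ℝ) ≤ Z := by exact_mod_cast hZ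
    have h3 : Cov Z K Λ ((16 ^ (i + 3) / (Z : ℝ)) ^ (i + 2)) ((16 ^ (J + 3) / (Z : ℝ)) ^ (J + 2)) :=
      cov_mono h2 (desc_two (by omega) hZ1 hK hK3)
    obtain ⟨Λ', h4, h5⟩ := hlev i (by omega) Λ h3
    refine ⟨Λ', h4.trans ?_, h5⟩
    have e : (K : ℝ) / 20 / 2 ^ (i + 1) = K / 20 / 2 ^ (i + 1 + 1) + K / 20 / 2 ^ (i + 2) := by
      rw [pow_succ (2 : ℝ) (i + 1)]
      field_simp
      norm_num
    rw [e]
    linarith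

end Pool.Agent.Lib.MP_6b2d39_agHyU
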