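import Pool.Agent.Lib.MP_6b2d39_agHx.Gadget

set_option autoImplicit false

namespace Pool.Agent.Lib.MP_6b2d39_agHyU

open Pool.Agent.Lib.MP_ed661f_ag.G Pool.Agent.Lib.MP_6b2d39_agHx

private theorem gl_length (e i : ℕ) : (gl e i).length = i + 2 := by
  induction i with
  | zero => rfl
  | succ i ih =>
    show (gl e i).length + 1 = i + 1 + 2
    rw [ih]

private theorem gl_nonneg (e i : ℕ) : ∀ t ∈ gl e i, 0 ≤ t := by
  induction i with
  | zero =>
    intro t ht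
    simp only [gl, List.mem_cons, List.not_mem_nil, or_false] at ht
    rcases ht with rfl | rfl <;> positivity
  | succ i ih =>
    intro t ht
    simp only [gl, List.mem_cons] at ht
    rcases ht with rfl | ht
    · positivity
    · exact ih t ht

private theorem gl_prod (e i : ℕ) : (gl e i).prod =
    2 * 8 ^ i * 2 ^ (i * (i - 1) / 2) * (e : ℝ) ^ (i + 2) := by
  induction i with
  | zero =>
    simp [gl]
    ring
  | succ i ih =>
    show (2 ^ i * (8 * e) : ℝ) * (gl e i).prod = _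
    rw [ih, Nat.triangle_succ, pow_add 2 (i * (i - 1) / 2) i]
    ring

private theorem gl_sum (e i : ℕ) : (gl e i).sum = 3 * (e : ℝ) + 8 * e * (2 ^ i - 1) := by
  induction i with
  | zero =>
    simp [gl]
    ring
  | succ i ih =>
    show (2 ^ i * (8 * e) : ℝ) + (gl e i).sum = _
    rw [ih]
    ring

private theorem num_le (i : ℕ) :
    (i + 1).factorial * (2 * 8 ^ i * 2 ^ (i * (i - 1) / 2)) * 12 ^ (i + 2) ≤
      (16 ^ (i + 3)) ^ (i + 2) := by
  induction i with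
  | zero => norm_num [Nat.factorial]
  | succ i ih =>
    have h1 : i + 2 ≤ 2 ^ (i + 2) := (Nat.lt_two_pow_self).le
    have h2 : (i + 1 + 1).factorial * (2 * 8 ^ (i + 1) * 2 ^ ((i + 1) * (i + 1 - 1) / 2)) *
        12 ^ (i + 1 + 2) =
        ((i + 1).factorial * (2 * 8 ^ i * 2 ^ (i * (i - 1) / 2)) * 12 ^ (i + 2)) *
          ((i + 2) * 96 * 2 ^ i) := by
      rw [Nat.triangle_succ, pow_add 2 (i * (i - 1) / 2) i, Nat.factorial_succ (i + 1)]
      ring
    have h3 : (i + 2) * 96 * 2 ^ i ≤ 16 ^ (2 * i + 6) := by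
      have h4 : (16 : ℕ) ^ (2 * i + 6) = 2 ^ (8 * i + 24) := by
        rw [show (16 : ℕ) = 2 ^ 4 by norm_num, ← pow_mul]
        congr 1
        ring
      have h5 : (2 : ℕ) ^ (i + 2) * 2 ^ 7 * 2 ^ i = 2 ^ (2 * i + 9) := by
        rw [← pow_add, ← pow_add]
        congr 1
        ring
      calc (i + 2) * 96 * 2 ^ i ≤ 2 ^ (i + 2) * 2 ^ 7 * 2 ^ i :=
            Nat.mul_le_mul (Nat.mul_le_mul h1 (by norm_num)) le_rfl
        _ = 2 ^ (2 * i + 9) := h5
        _ ≤ 2 ^ (8 * i + 24) := Nat.pow_le_pow_right (by norm_num) (by omega)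
        _ = _ := h4.symm
    have h6 : (16 ^ (i + 1 + 3)) ^ (i + 1 + 2) = (16 ^ (i + 3)) ^ (i + 2) * 16 ^ (2 * i + 6) := by
      rw [← pow_mul, ← pow_mul, ← pow_add]
      congr 1
      ring
    rw [h2, h6]
    exact Nat.mul_le_mul ih h3

/-- HU1. as `gad_bounds` (`Hx/GadB.lean`, copy its private lemmas) with
`K = (i + 1)! * 2 * 8 ^ i * 2 ^ (i * (i - 1) / 2)` and `b = K ^ (1 / (i + 2))` (real power), so
`b ^ (i + 2) = K`; `K ≤ (8 (i + 2) 2 ^ i) ^ (i + 2)`, so `12 b ≤ 96 (i + 2) 2 ^ i ≤ 16 ^ (i + 3)`. -/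
theorem gad_u (i : ℕ) : ∃ b : ℝ, 1 ≤ b ∧ 12 * b ≤ 16 ^ (i + 3) ∧ ∀ e n z : ℕ, 2 ≤ e →
    n ≤ 2 * z → z + 2 ^ i * (8 * e) ≤ n →
    (b * e / n) ^ (i + 2) ≤ -dl (gl e i) Real.log ((z : ℝ) + 1) ∧
    -dl (gl e i) Real.log ((z : ℝ) + 1) ≤ (2 * b * e / n) ^ (i + 2) := by
  obtain ⟨C, hC⟩ : ∃ C : ℝ, C =
      ((i + 1).factorial : ℝ) * (2 * 8 ^ i * 2 ^ (i * (i - 1) / 2)) := ⟨_, rfl⟩
  have hC1 : 1 ≤ C := by
    have h1 : (1 : ℝ) ≤ ((i + 1).factorial : ℝ) := by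
      exact_mod_cast Nat.succ_le_of_lt (Nat.factorial_pos (i + 1))
    have h2 : (1 : ℝ) ≤ 8 ^ i := one_le_pow₀ (by norm_num)
    have h3 : (1 : ℝ) ≤ 2 ^ (i * (i - 1) / 2) := one_le_pow₀ (by norm_num)
    have h4 : (1 : ℝ) ≤ 2 * 8 ^ i := by linarith
    rw [hC]
    exact one_le_mul_of_one_le_of_one_le h1 (one_le_mul_of_one_le_of_one_le h4 h3)
  have hC0 : 0 ≤ C := zero_le_one.trans hC1
  obtain ⟨b, hb0, hb⟩ : ∃ b : ℝ, 0 ≤ b ∧ b ^ (i + 2) = C := by
    refine ⟨C ^ (((i + 2 : ℕ) : ℝ)⁻¹), Real.rpow_nonneg hC0 _, ?_⟩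
    exact Real.rpow_inv_natCast_pow hC0 (by omega)
  have hb1 : 1 ≤ b := by
    by_contra hlt
    rw [not_le] at hlt
    have h1 : b ^ (i + 2) < 1 := pow_lt_one₀ hb0 hlt (by omega)
    rw [hb] at h1
    exact absurd hC1 (not_le.2 h1)
  have hb2 : 12 * b ≤ 16 ^ (i + 3) := by
    have h1 := num_le i
    have h2 : C * 12 ^ (i + 2) ≤ ((16 : ℝ) ^ (i + 3)) ^ (i + 2) := by
      rw [hC]
      exact_mod_cast h1
    have h3 : (12 * b) ^ (i + 2) ≤ ((16 : ℝ) ^ (i + 3)) ^ (i + 2) := by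
      rw [mul_pow, hb, mul_comm]
      exact h2
    exact le_of_pow_le_pow_left₀ (by omega) (by positivity) h3
  refine ⟨b, hb1, hb2, fun e n z he hz hn => ?_⟩
  have he' : (2 : ℝ) ≤ e := by exact_mod_cast he
  have hz' : (n : ℝ) ≤ 2 * z := by exact_mod_cast hz
  have hn' : (z : ℝ) + 2 ^ i * (8 * e) ≤ n := by exact_mod_cast hn
  have hz0 : (0 : ℝ) ≤ z := Nat.cast_nonneg z
  have hp : (0 : ℝ) < 2 ^ i * (8 * e) := by positivity
  have hn0 : (0 : ℝ) < n := by linarith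
  have hz1 : (0 : ℝ) < (z : ℝ) + 1 := by linarith
  have key : C * (e : ℝ) ^ (i + 2) / ((z : ℝ) + 1 + (gl e i).sum) ^ (i + 2) ≤
      -dl (gl e i) Real.log ((z : ℝ) + 1) ∧
      -dl (gl e i) Real.log ((z : ℝ) + 1) ≤ C * (e : ℝ) ^ (i + 2) / ((z : ℝ) + 1) ^ (i + 2) := by
    have hl := gl_length e i
    have hpr := gl_prod e i
    have hnn := gl_nonneg e i
    rcases hg : gl e i with _ | ⟨t, hs⟩
    · rw [hg] at hl
      simp at hl
    · rw [hg] at hl hpr hnn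
      have hlen : hs.length = i + 1 := by
        simp only [List.length_cons] at hl
        omega
      have h := dl_log_bounds (t := t) (hs := hs) (hnn t (by simp))
        (fun x hx => hnn x (by simp [hx])) hz1
      rw [hlen, hpr] at h
      have h5 : ((i + 1).factorial : ℝ) *
          (2 * 8 ^ i * 2 ^ (i * (i - 1) / 2) * (e : ℝ) ^ (i + 2)) = C * (e : ℝ) ^ (i + 2) := by
        rw [hC]
        ring
      rw [h5] at h
      exact h
  have hsum := gl_sum e i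
  have hs0 : 0 ≤ (gl e i).sum := List.sum_nonneg (gl_nonneg e i)
  constructor
  · refine le_trans ?_ key.1
    have h6 : (z : ℝ) + 1 + (gl e i).sum ≤ n := by
      rw [hsum]
      nlinarith
    rw [div_pow, mul_pow, hb]
    exact div_le_div_of_nonneg_left (by positivity) (by positivity)
      (pow_le_pow_left₀ (by positivity) h6 _)
  · refine le_trans key.2 ?_
    have h7 : (n : ℝ) / 2 ≤ (z : ℝ) + 1 := by linarith
    have h8 : C * (e : ℝ) ^ (i + 2) / ((z : ℝ) + 1) ^ (i + 2) ≤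
        C * (e : ℝ) ^ (i + 2) / ((n : ℝ) / 2) ^ (i + 2) :=
      div_le_div_of_nonneg_left (by positivity) (by positivity)
        (pow_le_pow_left₀ (by positivity) h7 _)
    refine h8.trans (le_of_eq ?_)
    rw [div_pow (2 * b * (e : ℝ)), mul_pow, mul_pow, hb, div_pow]
    field_simp

end Pool.Agent.Lib.MP_6b2d39_agHyU
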