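import Mathlib

set_option autoImplicit false

namespace Pool.Agent.Lib.MP_6b2d39_agHyU

/-- HU6. `J = log₂ Z / 400`: `2 ^ (10 J) ≤ Z ^ (1 / 40)`, `2 ^ 32 ≤ Z ^ (1 / 200)`, so
`2 ^ (10 J + 32) ≤ Z ^ (3 / 100)` and `K / 2 ^ (10 J + 32) ≥ Z ^ (34 / 100)`, `3 * 34 / 100 ≥ 1`;
`16 ^ (J + 3) ≤ Z ^ (2 / 100)`, `J + 2 ≥ log Z / (400 log 2) ≥ log Z / 278`,
`98 / 100 / 278 ≥ 1 / 300`. -/
theorem j_num : ∃ Z0 : ℕ, ∀ Z K : ℕ, Z0 ≤ Z → (Z : ℝ) ^ (37 / 100 : ℝ) ≤ K →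
    (2 : ℝ) ^ (10 * (Nat.log 2 Z / 400) + 32) ≤ K ∧
    ((2 : ℝ) ^ (10 * (Nat.log 2 Z / 400) + 32)) ^ 3 * Z ≤ (K : ℝ) ^ 3 ∧
    (16 ^ (Nat.log 2 Z / 400 + 3) / (Z : ℝ)) ^ (Nat.log 2 Z / 400 + 2) ≤
      Real.exp (-(Real.log Z) ^ 2 / 300) := by
  obtain ⟨N, hN⟩ : ∃ N : ℕ, N = 6400 := ⟨_, rfl⟩
  refine ⟨2 ^ N, fun Z K hZ hK => ?_⟩
  have hZ1 : 1 ≤ Z := le_trans Nat.one_le_two_pow hZ
  have hZ0 : Z ≠ 0 := by omega
  have hZr : (0 : ℝ) < Z := by exact_mod_cast hZ1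
  obtain ⟨L, hL⟩ : ∃ L, Nat.log 2 Z = L := ⟨_, rfl⟩
  obtain ⟨J, hJ⟩ : ∃ J, L / 400 = J := ⟨_, rfl⟩
  have hL1 : 6400 ≤ L := by
    rw [← hL, ← hN]
    exact Nat.le_log_of_pow_le (by norm_num) hZ
  have hL2 : 2 ^ L ≤ Z := by rw [← hL]; exact Nat.pow_log_le_self 2 hZ0
  have hL3 : Z < 2 ^ (L + 1) := by
    rw [← hL]; exact Nat.lt_pow_succ_log_self (by norm_num) Z
  have hJ1 : 400 * J ≤ L := by omega
  have hJ2 : L + 1 ≤ 400 * (J + 1) := by omega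
  rw [hL, hJ]
  have c1 := Real.log_two_gt_d9
  have c2 := Real.log_two_lt_d9
  obtain ⟨c, hc⟩ : ∃ c, Real.log 2 = c := ⟨_, rfl⟩
  obtain ⟨x, hx⟩ : ∃ x, Real.log (Z : ℝ) = x := ⟨_, rfl⟩
  rw [hc] at c1 c2
  have hZx : (Z : ℝ) = Real.exp x := by rw [← hx, Real.exp_log hZr]
  have h2c : (2 : ℝ) = Real.exp c := by rw [← hc, Real.exp_log (by norm_num)]
  have hx1 : (L : ℝ) * c ≤ x := by
    rw [← hx, ← hc, ← Real.log_pow]
    exact Real.log_le_log (by positivity) (by exact_mod_cast hL2)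
  have hx2 : x ≤ ((L : ℝ) + 1) * c := by
    rw [← hx, ← hc]
    have : ((L : ℝ) + 1) * Real.log 2 = Real.log ((2 : ℝ) ^ (L + 1)) := by
      rw [Real.log_pow]; push_cast; ring
    rw [this]
    exact Real.log_le_log hZr (by exact_mod_cast hL3.le)
  have hLr : (6400 : ℝ) ≤ L := by exact_mod_cast hL1
  have hJr1 : 400 * (J : ℝ) ≤ L := by exact_mod_cast hJ1
  have hJr2 : (L : ℝ) + 1 ≤ 400 * ((J : ℝ) + 1) := by exact_mod_cast hJ2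
  have hx0 : 0 ≤ x := le_trans (by positivity) hx1
  have hK2 : Real.exp (37 / 100 * x) ≤ K := by
    refine le_trans (le_of_eq ?_) hK
    rw [Real.rpow_def_of_pos hZr, hx, mul_comm]
  have e1 : ((10 * J + 32 : ℕ) : ℝ) * c ≤ 3 / 100 * x := by
    push_cast
    nlinarith
  have e2 : ((4 * (J + 3) : ℕ) : ℝ) * c ≤ 2 / 100 * x := by
    push_cast
    nlinarith
  have p1 : (2 : ℝ) ^ (10 * J + 32) ≤ Real.exp (3 / 100 * x) := by
    rw [h2c, ← Real.exp_nat_mul]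
    exact Real.exp_le_exp.2 e1
  have p2 : (16 : ℝ) ^ (J + 3) ≤ Real.exp (2 / 100 * x) := by
    have : (16 : ℝ) ^ (J + 3) = Real.exp (((4 * (J + 3) : ℕ) : ℝ) * c) := by
      rw [Real.exp_nat_mul, ← h2c, pow_mul]; norm_num
    rw [this]
    exact Real.exp_le_exp.2 e2
  refine ⟨?_, ?_, ?_⟩
  · refine le_trans p1 (le_trans (Real.exp_le_exp.2 ?_) hK2)
    nlinarith
  · have q1 : ((2 : ℝ) ^ (10 * J + 32)) ^ 3 * Z ≤ Real.exp (3 / 100 * x) ^ 3 * Real.exp x := by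
      rw [hZx]
      exact mul_le_mul_of_nonneg_right (pow_le_pow_left₀ (by positivity) p1 3)
        (Real.exp_pos x).le
    have q2 : Real.exp (3 / 100 * x) ^ 3 * Real.exp x ≤ Real.exp (37 / 100 * x) ^ 3 := by
      rw [← Real.exp_nat_mul, ← Real.exp_nat_mul, ← Real.exp_add]
      refine Real.exp_le_exp.2 ?_
      push_cast
      nlinarith
    exact le_trans q1 (le_trans q2 (pow_le_pow_left₀ (Real.exp_pos _).le hK2 3))
  · have q1 : (16 : ℝ) ^ (J + 3) / (Z : ℝ) ≤ Real.exp (-(98 / 100 * x)) := by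
      rw [div_le_iff₀ hZr, hZx, ← Real.exp_add]
      refine le_trans p2 (Real.exp_le_exp.2 ?_)
      nlinarith
    refine le_trans (pow_le_pow_left₀ (by positivity) q1 (J + 2)) ?_
    rw [← Real.exp_nat_mul]
    refine Real.exp_le_exp.2 ?_
    push_cast
    have q3 : x / 300 ≤ 98 / 100 * ((J : ℝ) + 2) := by
      nlinarith
    have q4 : x * (x / 300) ≤ x * (98 / 100 * ((J : ℝ) + 2)) :=
      mul_le_mul_of_nonneg_left q3 hx0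
    nlinarith

end Pool.Agent.Lib.MP_6b2d39_agHyU
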