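import Pool.Agent.Lib.MP_6b2d39_agHyU.StepU

set_option autoImplicit false

namespace Pool.Agent.Lib.MP_6b2d39_agHyU

open Pool.Agent.Lib.MP_6b2d39_agHx

/-- HU3. as `cov_level` (`Hx/CovL.lean`): iterate `cov_step_u` -/
theorem cov_level_u (i n B Λ : ℕ) (η u u' : ℝ) (hn : 1 ≤ n) (hu : 16 ^ (i + 3) ≤ u)
    (huu : u ≤ u') (hB : u' ≤ 2 * B) (h : Cov n B Λ ((u / n) ^ (i + 2)) η) :
    ∃ Λ' : ℕ, (Λ' : ℝ) ≤ Λ + 2 * 32 ^ (i + 2) * u' ∧ Cov n B Λ' ((u' / n) ^ (i + 2)) η := by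
  classical
  obtain ⟨C, hC⟩ : ∃ C : ℝ, C = 32 ^ (i + 2) := ⟨_, rfl⟩
  obtain ⟨c, hc⟩ : ∃ c : ℝ, c = 1 / 16 ^ (i + 2) := ⟨_, rfl⟩
  obtain ⟨u0, hu0⟩ : ∃ u0 : ℝ, u0 = 16 ^ (i + 3) := ⟨_, rfl⟩
  have hC0 : 0 < C := by rw [hC]; positivity
  have hc0 : 0 < c := by rw [hc]; positivity
  have hc1 : c ≤ 1 := by
    rw [hc, div_le_one (by positivity)]
    exact one_le_pow₀ (by norm_num)
  have hu01 : 1 ≤ u0 := by
    rw [hu0]
    exact one_le_pow₀ (by norm_num)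
  have hst : ∀ (Λ : ℕ) (u : ℝ), u0 ≤ u → u ≤ 2 * B → Cov n B Λ ((u / n) ^ (i + 2)) η →
      ∃ Λ' : ℕ, (Λ' : ℝ) ≤ Λ + C * ((1 + c) * u - u) ∧
        Cov n B Λ' (((1 + c) * u / n) ^ (i + 2)) η := by
    intro Λ u h1 h2 h3
    rw [hC, hc]
    exact cov_step_u i n B Λ η u hn (hu0 ▸ h1) h2 h3
  rw [← hu0] at hu
  rw [← hC]
  have hu1 : 1 ≤ u := hu01.trans hu
  have hupos : 0 < u := by linarith
  have hn0 : (0 : ℝ) < n := by exact_mod_cast hn
  have h1c : 1 < 1 + c := by linarith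
  have hex : ∃ m : ℕ, u' ≤ (1 + c) ^ m * u := by
    obtain ⟨m, hm⟩ := pow_unbounded_of_one_lt u' h1c
    refine ⟨m, hm.le.trans ?_⟩
    exact le_mul_of_one_le_right (pow_nonneg (by linarith) m) hu1
  have hup : ∀ m : ℕ, u ≤ (1 + c) ^ m * u := fun m =>
    le_mul_of_one_le_left hupos.le (one_le_pow₀ h1c.le)
  have key : ∀ m : ℕ, (∀ k : ℕ, k < m → (1 + c) ^ k * u ≤ u') →
      ∃ Λ' : ℕ, (Λ' : ℝ) ≤ Λ + C * ((1 + c) ^ m * u - u) ∧
        Cov n B Λ' (((1 + c) ^ m * u / n) ^ (i + 2)) η := by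
    intro m
    induction m with
    | zero =>
      intro _
      refine ⟨Λ, ?_, ?_⟩
      · rw [pow_zero, one_mul, sub_self, mul_zero, add_zero]
      · rw [pow_zero, one_mul]
        exact h
    | succ m ih =>
      intro hk
      obtain ⟨Λ₁, h1, h2⟩ := ih fun k hkm => hk k (by omega)
      have h3 := hk m (Nat.lt_succ_self m)
      obtain ⟨Λ₂, h4, h5⟩ := hst Λ₁ ((1 + c) ^ m * u) (hu.trans (hup m)) (h3.trans hB) h2
      have e : (1 + c) ^ (m + 1) * u = (1 + c) * ((1 + c) ^ m * u) := by ring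
      refine ⟨Λ₂, ?_, ?_⟩
      · rw [e]
        have e2 : C * ((1 + c) * ((1 + c) ^ m * u) - u) = C * ((1 + c) ^ m * u - u) +
            C * ((1 + c) * ((1 + c) ^ m * u) - (1 + c) ^ m * u) := by ring
        rw [e2]
        linarith
      · rw [e]
        exact h5
  obtain ⟨m, hm⟩ : ∃ m, Nat.find hex = m := ⟨_, rfl⟩
  have h1 := Nat.find_spec hex
  rw [hm] at h1
  have h2 : ∀ k : ℕ, k < m → (1 + c) ^ k * u ≤ u' := by
    intro k hk
    have := Nat.find_min hex (m := k) (by omega)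
    exact (not_le.1 this).le
  obtain ⟨Λ', h3, h4⟩ := key m h2
  refine ⟨Λ', ?_, cov_mono h4 ?_⟩
  · have h5 : (1 + c) ^ m * u ≤ 2 * u' := by
      cases m with
      | zero =>
        rw [pow_zero, one_mul]
        linarith
      | succ k =>
        have h6 := h2 k (Nat.lt_succ_self k)
        have e : (1 + c) ^ (k + 1) * u = (1 + c) * ((1 + c) ^ k * u) := by ring
        rw [e]
        have h7 : 0 ≤ (1 + c) ^ k * u := by positivity
        nlinarith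
    have h8 : C * ((1 + c) ^ m * u - u) ≤ C * (2 * u') := by
      apply mul_le_mul_of_nonneg_left _ hC0.le
      linarith
    linarith
  · have h6 : 0 ≤ u' / n := div_nonneg (by linarith) hn0.le
    exact pow_le_pow_left₀ h6 (div_le_div_of_nonneg_right h1 hn0.le) _

end Pool.Agent.Lib.MP_6b2d39_agHyU
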