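import Pool.Agent.Lib.MP_6b2d39_agHyU.ChainU
import Pool.Agent.Lib.MP_6b2d39_agHyU.JNum

set_option autoImplicit false

namespace Pool.Agent.Lib.MP_6b2d39_agHyU

open Pool.Agent.Lib.MP_6b2d39_agHx

/-- HU7. coverage at the scale `Z`, uniform -/
theorem seg_u : ∃ Z0 : ℕ, ∀ Z K : ℕ, Z0 ≤ Z → (Z : ℝ) ^ (37 / 100 : ℝ) ≤ K →
    ∃ Λ : ℕ, (Λ : ℝ) ≤ K / 10 ∧
      Cov Z K Λ (((K : ℝ) / 163840 / Z) ^ 2) (Real.exp (-(Real.log Z) ^ 2 / 300)) := by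
  obtain ⟨Z0, h⟩ := j_num
  refine ⟨max Z0 1, fun Z K hZ hK => ?_⟩
  obtain ⟨h1, h2, h3⟩ := h Z K ((le_max_left _ _).trans hZ) hK
  obtain ⟨Λ, hΛ, hc⟩ := chain_u (Nat.log 2 Z / 400) Z K ((le_max_right _ _).trans hZ) h1 h2
    (Nat.log 2 Z / 400) 0 (by omega)
  refine ⟨Λ, ?_, ?_⟩
  · have hK0 : (0 : ℝ) ≤ K := Nat.cast_nonneg K
    norm_num at hΛ
    linarith
  · have e1 : (K : ℝ) / (40 * 64 ^ (0 + 2)) / Z = (K : ℝ) / 163840 / Z := by norm_num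
    rw [e1] at hc
    intro z hz1 hz2
    obtain ⟨v0, hv0⟩ := hc z hz1 hz2
    refine ⟨v0, fun t ht1 ht2 => ?_⟩
    obtain ⟨v, hv1, hv2⟩ := hv0 t ht1 ht2
    exact ⟨v, hv1, hv2.trans h3⟩

end Pool.Agent.Lib.MP_6b2d39_agHyU
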