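import Pool.Agent.Lib.MP_6b2d39_agHyU.GadU
import Pool.Agent.Lib.MP_6b2d39_agHx.CovB

set_option autoImplicit false

namespace Pool.Agent.Lib.MP_6b2d39_agHyU

open Pool.Agent.Lib.MP_6b2d39_agHx

private theorem stepU_bern (c : ℝ) (h0 : 0 ≤ c) (h1 : c ≤ 1) (j : ℕ) :
    (1 + c) ^ j ≤ 1 + (2 ^ j - 1) * c := by
  induction j with
  | zero => simp
  | succ j ih =>
    have h2 : (1 : ℝ) ≤ 2 ^ j := one_le_pow₀ (by norm_num)
    have h3 : (2 ^ j - 1) * (c * c) ≤ (2 ^ j - 1) * c :=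
      mul_le_mul_of_nonneg_left (by nlinarith) (by linarith)
    calc (1 + c) ^ (j + 1) = (1 + c) ^ j * (1 + c) := pow_succ _ _
      _ ≤ (1 + (2 ^ j - 1) * c) * (1 + c) := mul_le_mul_of_nonneg_right ih (by linarith)
      _ = 1 + 2 ^ j * c + (2 ^ j - 1) * (c * c) := by ring
      _ ≤ 1 + 2 ^ j * c + (2 ^ j - 1) * c := by linarith
      _ = 1 + (2 ^ (j + 1) - 1) * c := by ring

/-- HU2. as `cov_step` (`Hx/CovS.lean`), explicit constants. `j = i + 2`, `e = ⌊u / (4 b)⌋₊`, so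
`2 ≤ e`, `u / (8 b) ≤ e ≤ u / (4 b)`, `2 e ≤ B`; the gadget has the value at most
`(2 b e / n) ^ j ≤ (u / n) ^ j` and at least `(b e / n) ^ j ≥ (u / n) ^ j / 8 ^ j`;
`(1 + 1 / 16 ^ j) ^ j ≤ 1 + 2 ^ j / 16 ^ j = 1 + 1 / 8 ^ j`; the length is
`2 ^ i 8 e ≤ 2 ^ (i + 1) u ≤ 32 ^ j (u / 16 ^ j)`. -/
theorem cov_step_u (i n B Λ : ℕ) (η u : ℝ) (hn : 1 ≤ n) (hu : 16 ^ (i + 3) ≤ u)
    (hB : u ≤ 2 * B) (h : Cov n B Λ ((u / n) ^ (i + 2)) η) :
    ∃ Λ' : ℕ, (Λ' : ℝ) ≤ Λ + 32 ^ (i + 2) * ((1 + 1 / 16 ^ (i + 2)) * u - u) ∧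
      Cov n B Λ' (((1 + 1 / 16 ^ (i + 2)) * u / n) ^ (i + 2)) η := by
  obtain ⟨b, hb1, hb2, hb⟩ := gad_u i
  have hb0 : 0 < b := by linarith
  have h16 : (0 : ℝ) < 16 ^ (i + 2) := by positivity
  have hc1 : (1 : ℝ) / 16 ^ (i + 2) ≤ 1 := by
    rw [div_le_one h16]
    exact one_le_pow₀ (by norm_num)
  have hc0 : (0 : ℝ) < 1 / 16 ^ (i + 2) := by positivity
  have hn0 : (0 : ℝ) < n := by exact_mod_cast hn
  have hu12 : 12 * b ≤ u := hb2.trans hu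
  have hu0 : 0 < u := by linarith
  obtain ⟨e, he⟩ : ∃ e : ℕ, e = ⌊u / (4 * b)⌋₊ := ⟨_, rfl⟩
  have hq : 3 ≤ u / (4 * b) := by
    rw [le_div_iff₀ (by positivity)]; linarith
  have he1 : (e : ℝ) ≤ u / (4 * b) := by
    rw [he]; exact Nat.floor_le (by positivity)
  have he2 : u / (4 * b) < e + 1 := by
    rw [he]; exact Nat.lt_floor_add_one _
  have he3 : 2 ≤ e := by
    rw [he]; exact Nat.le_floor (by push_cast; linarith)
  have he4 : u / (8 * b) ≤ e := by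
    have : u / (8 * b) = u / (4 * b) / 2 := by
      rw [div_div]; congr 1; ring
    rw [this]; linarith
  have hle : u / (4 * b) ≤ u / 4 := by
    apply div_le_div_of_nonneg_left hu0.le (by norm_num) (by linarith)
  have he5 : 2 * e ≤ B := by
    have : (2 * e : ℝ) ≤ B := by linarith
    exact_mod_cast this
  have hbe1 : b * e ≤ u / 4 := by
    calc b * e ≤ b * (u / (4 * b)) := mul_le_mul_of_nonneg_left he1 hb0.le
      _ = u / 4 := by field_simp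
  have hbe2 : u / 8 ≤ b * e := by
    calc u / 8 = b * (u / (8 * b)) := by field_simp
      _ ≤ b * e := mul_le_mul_of_nonneg_left he4 hb0.le
  have he0 : (0 : ℝ) ≤ e := Nat.cast_nonneg e
  have hlow : 1 / 8 ^ (i + 2) * (u / n) ^ (i + 2) ≤ (b * e / n) ^ (i + 2) := by
    have h1 : u / 8 / n ≤ b * e / n := div_le_div_of_nonneg_right hbe2 hn0.le
    calc 1 / 8 ^ (i + 2) * (u / n) ^ (i + 2) = (u / 8 / n) ^ (i + 2) := by
          rw [div_right_comm, div_pow (u / n)]; ring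
      _ ≤ (b * e / n) ^ (i + 2) := pow_le_pow_left₀ (by positivity) h1 _
  have hup : (2 * b * e / n) ^ (i + 2) ≤ (u / n) ^ (i + 2) := by
    refine pow_le_pow_left₀ (by positivity) ?_ _
    exact div_le_div_of_nonneg_right (by linarith) hn0.le
  have hadd := cov_add (n := n) (B := B) (Λ := Λ) (l := 2 ^ i * (8 * e)) (H := (u / n) ^ (i + 2))
    (g := 1 / 8 ^ (i + 2) * (u / n) ^ (i + 2)) (η := η) (by positivity) h (by
      intro z hz hzl
      obtain ⟨v, w, hv, hw, hvw⟩ := gadget e he3 i z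
      obtain ⟨h1, h2⟩ := hb e n z he3 hz hzl
      refine ⟨v, w, hv.mono he5, hw.mono he5, ?_, ?_⟩
      · rw [hvw]; exact hlow.trans h1
      · rw [hvw]; exact h2.trans hup)
  refine ⟨2 ^ i * (8 * e) + Λ, ?_, cov_mono hadd ?_⟩
  · push_cast
    have h1 : (e : ℝ) ≤ u / 4 := he1.trans hle
    have h3 : (0 : ℝ) < 2 ^ i := by positivity
    have h2 : (2 : ℝ) ^ i * (8 * e) ≤ 2 ^ (i + 1) * u := by
      calc (2 : ℝ) ^ i * (8 * e) ≤ 2 ^ i * (8 * (u / 4)) :=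
            mul_le_mul_of_nonneg_left (by linarith) h3.le
        _ = 2 ^ (i + 1) * u := by ring
    have h4 : 32 ^ (i + 2) * ((1 + 1 / 16 ^ (i + 2)) * u - u) = 2 ^ (i + 2) * u := by
      have h5 : (32 : ℝ) ^ (i + 2) = 2 ^ (i + 2) * 16 ^ (i + 2) := by
        rw [← mul_pow]; norm_num
      rw [h5]
      field_simp
      ring
    have h6 : (2 : ℝ) ^ (i + 1) * u ≤ 2 ^ (i + 2) * u := by
      refine mul_le_mul_of_nonneg_right ?_ hu0.le
      exact pow_le_pow_right₀ (by norm_num) (by omega)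
    rw [h4]; linarith
  · have h1 : (1 + 1 / 16 ^ (i + 2) : ℝ) ^ (i + 2) ≤ 1 + 1 / 8 ^ (i + 2) := by
      have h2 := stepU_bern (1 / 16 ^ (i + 2)) hc0.le hc1 (i + 2)
      have h3 : (2 : ℝ) ^ (i + 2) * (1 / 16 ^ (i + 2)) = 1 / 8 ^ (i + 2) := by
        have h5 : (16 : ℝ) ^ (i + 2) = 2 ^ (i + 2) * 8 ^ (i + 2) := by
          rw [← mul_pow]; norm_num
        rw [h5]
        field_simp
      rw [sub_mul, h3, one_mul] at h2
      linarith
    have hx : (0 : ℝ) < (u / n) ^ (i + 2) := by positivity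
    calc ((1 + 1 / 16 ^ (i + 2)) * u / n) ^ (i + 2) =
          (1 + 1 / 16 ^ (i + 2)) ^ (i + 2) * (u / n) ^ (i + 2) := by
          rw [mul_div_assoc, mul_pow]
      _ ≤ (1 + 1 / 8 ^ (i + 2)) * (u / n) ^ (i + 2) := mul_le_mul_of_nonneg_right h1 hx.le
      _ = (u / n) ^ (i + 2) + 1 / 8 ^ (i + 2) * (u / n) ^ (i + 2) := by ring

end Pool.Agent.Lib.MP_6b2d39_agHyU
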