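import Mathlib

set_option autoImplicit false

namespace Pool.Agent.Lib.MP_6b2d39_agHyU

/-- HU10. `z0 = q ^ 2 + 2`, `y = q + 1 / q`, `y ^ 2 = z0 + 1 / q ^ 2`, `Z = z0 + 2 K = z0 + 2 D + 2 w`,
`P = sf ^ 2 / n`, `κ = (K / z0) ^ 2`:
`2 log (sf / √n) - log Z ∈ [0, κ / 100]`, `2 log y - log z0 ∈ [0, 1 / q ^ 4]`, `1 / q ^ 4 ≤ κ / 100`,
so the left hand side is at most `(1 / 100 + 1 / 100 + 1 / 8 + 2 / 100) κ ≤ 1 / 5 κ`; and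
`D ≥ 19 / 20 K`, so `9 / 10 (D / z0) ^ 2 ≥ 4 / 5 κ`. -/
theorem tun_e {n q K D w sf : ℕ} {v0 η : ℝ} (hn : 1 ≤ n) (hq : 1 ≤ q) (hK : 100 ≤ K)
    (hKq : 16 * K ^ 2 ≤ q ^ 2 + 2) (hD : K = D + w) (hw : 2 * (w : ℝ) ≤ K / 10)
    (hs0 : 1 ≤ sf) (hs1 : ((q ^ 2 + 2 + 2 * K : ℕ) : ℝ) ≤ (sf : ℝ) ^ 2 / n)
    (hs2 : (sf : ℝ) ^ 2 / n ≤ ((q ^ 2 + 2 + 2 * K : ℕ) : ℝ) *
      (1 + 1 / 100 * ((K : ℝ) / ((q ^ 2 + 2 : ℕ) : ℝ)) ^ 2))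
    (hv0 : |2 * v0 - Real.log (((q ^ 2 + 2 + 2 * K : ℕ) : ℝ) / ((q ^ 2 + 2 + 2 * D : ℕ) : ℝ))| ≤
      1 / 8 * ((K : ℝ) / ((q ^ 2 + 2 : ℕ) : ℝ)) ^ 2)
    (hη : 0 ≤ η) (hη' : η ≤ 1 / 100 * ((K : ℝ) / ((q ^ 2 + 2 : ℕ) : ℝ)) ^ 2) :
    |2 * (Real.log ((sf : ℝ) / √n) - Real.log ((q : ℝ) + 1 / q) + η - v0) -
      Real.log ((((q ^ 2 + 2 : ℕ) : ℝ) + 2 * D) / ((q ^ 2 + 2 : ℕ) : ℝ))| ≤
      9 / 10 * (D : ℝ) ^ 2 / ((q ^ 2 + 2 : ℕ) : ℝ) ^ 2 ∧ 40 ≤ D := by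
  have hDK : (D : ℝ) = K - w := by
    rw [hD]
    push_cast
    ring
  have hK1 : (100 : ℝ) ≤ K := by exact_mod_cast hK
  have hw0 : (0 : ℝ) ≤ w := Nat.cast_nonneg w
  have hD19 : 19 / 20 * (K : ℝ) ≤ D := by linarith
  have hD40 : 40 ≤ D := by
    have h1 : (40 : ℝ) ≤ D := by linarith
    exact_mod_cast h1
  refine ⟨?_, hD40⟩
  have hq1 : (1 : ℝ) ≤ q := by exact_mod_cast hq
  have hq0 : (0 : ℝ) < q := by linarith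
  have hn0 : (0 : ℝ) < n := by exact_mod_cast hn
  have hsf : (0 : ℝ) < sf := by exact_mod_cast hs0
  obtain ⟨z, hz⟩ : ∃ z : ℝ, z = (q : ℝ) ^ 2 + 2 := ⟨_, rfl⟩
  have hz1 : ((q ^ 2 + 2 : ℕ) : ℝ) = z := by
    rw [hz]
    push_cast
    ring
  have hz2 : ((q ^ 2 + 2 + 2 * K : ℕ) : ℝ) = z + 2 * K := by
    rw [hz]
    push_cast
    ring
  have hz3 : ((q ^ 2 + 2 + 2 * D : ℕ) : ℝ) = z + 2 * D := by
    rw [hz]
    push_cast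
    ring
  rw [hz1] at hs2 hv0 hη' ⊢
  rw [hz2] at hs1 hs2 hv0
  rw [hz3] at hv0
  have hzp : 0 < z := by rw [hz]; positivity
  have hD0 : (0 : ℝ) ≤ D := Nat.cast_nonneg D
  have hZ : 0 < z + 2 * K := by linarith
  have hZD : 0 < z + 2 * D := by linarith
  obtain ⟨κ, hκ⟩ : ∃ κ : ℝ, κ = ((K : ℝ) / z) ^ 2 := ⟨_, rfl⟩
  rw [← hκ] at hs2 hv0 hη'
  have hκ0 : 0 < κ := by
    rw [hκ]
    positivity
  -- the first term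
  obtain ⟨P, hP⟩ : ∃ P : ℝ, P = (sf : ℝ) ^ 2 / n := ⟨_, rfl⟩
  rw [← hP] at hs1 hs2
  have hP0 : 0 < P := by linarith
  have hA0 : 2 * Real.log ((sf : ℝ) / √n) = Real.log P := by
    have h1 : P = ((sf : ℝ) / √n) ^ 2 := by
      rw [div_pow, Real.sq_sqrt hn0.le, hP]
    rw [h1, Real.log_pow]
    norm_num
  have hA1 : Real.log (z + 2 * K) ≤ Real.log P := Real.log_le_log hZ hs1
  have hA2 : Real.log P ≤ Real.log (z + 2 * K) + 1 / 100 * κ := by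
    have h1 : Real.log P ≤ Real.log ((z + 2 * K) * (1 + 1 / 100 * κ)) := Real.log_le_log hP0 hs2
    have h2 : (0 : ℝ) < 1 + 1 / 100 * κ := by linarith
    rw [Real.log_mul hZ.ne' h2.ne'] at h1
    have h3 := Real.log_le_sub_one_of_pos h2
    linarith
  -- the second term
  obtain ⟨y, hy⟩ : ∃ y : ℝ, y = (q : ℝ) + 1 / q := ⟨_, rfl⟩
  rw [← hy]
  have hy0 : 0 < y := by
    rw [hy]
    positivity
  have hy2 : y ^ 2 = z + 1 / (q : ℝ) ^ 2 := by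
    rw [hy, hz]
    field_simp
    ring
  have hB0 : 2 * Real.log y = Real.log (y ^ 2) := by
    rw [Real.log_pow]
    norm_num
  have hB1 : Real.log z ≤ 2 * Real.log y := by
    rw [hB0]
    refine Real.log_le_log hzp ?_
    rw [hy2]
    have h1 : 0 ≤ 1 / (q : ℝ) ^ 2 := by positivity
    linarith
  have hB2 : 2 * Real.log y ≤ Real.log z + 1 / 100 * κ := by
    have h1 : y ^ 2 = z * (1 + 1 / ((q : ℝ) ^ 2 * z)) := by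
      rw [hy2]
      field_simp
    have h2 : (0 : ℝ) < 1 + 1 / ((q : ℝ) ^ 2 * z) := by positivity
    rw [hB0, h1, Real.log_mul hzp.ne' h2.ne']
    have h3 := Real.log_le_sub_one_of_pos h2
    have h4 : 1 / ((q : ℝ) ^ 2 * z) ≤ 1 / 100 * κ := by
      rw [hκ, div_pow, ← mul_div_assoc, div_le_div_iff₀ (by positivity) (by positivity)]
      have h5 : z ≤ 3 * (q : ℝ) ^ 2 := by
        rw [hz]
        have h6 : (1 : ℝ) ≤ (q : ℝ) ^ 2 := one_le_pow₀ hq1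
        linarith
      have h7 : (10000 : ℝ) ≤ (K : ℝ) ^ 2 := by
        have h8 := pow_le_pow_left₀ (by norm_num : (0 : ℝ) ≤ 100) hK1 2
        linarith
      have h9 : z * z ≤ 3 * (q : ℝ) ^ 2 * z := mul_le_mul_of_nonneg_right h5 hzp.le
      have h10 : 10000 * ((q : ℝ) ^ 2 * z) ≤ (K : ℝ) ^ 2 * ((q : ℝ) ^ 2 * z) :=
        mul_le_mul_of_nonneg_right h7 (by positivity)
      have h11 : 0 ≤ (q : ℝ) ^ 2 * z := by positivity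
      calc 1 * z ^ 2 = z * z := by ring
        _ ≤ 3 * (q : ℝ) ^ 2 * z := h9
        _ = 3 * ((q : ℝ) ^ 2 * z) := by ring
        _ ≤ 1 / 100 * (10000 * ((q : ℝ) ^ 2 * z)) := by linarith
        _ ≤ 1 / 100 * ((K : ℝ) ^ 2 * ((q : ℝ) ^ 2 * z)) := by linarith
        _ = 1 / 100 * (K : ℝ) ^ 2 * ((q : ℝ) ^ 2 * z) := by ring
    linarith
  -- the end
  rw [Real.log_div hZ.ne' hZD.ne'] at hv0
  rw [Real.log_div hZD.ne' hzp.ne']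
  obtain ⟨hv1, hv2⟩ := abs_le.1 hv0
  have hD2 : 4 / 5 * κ ≤ 9 / 10 * (D : ℝ) ^ 2 / z ^ 2 := by
    have h1 : (19 / 20 * (K : ℝ)) ^ 2 ≤ (D : ℝ) ^ 2 :=
      pow_le_pow_left₀ (by positivity) hD19 2
    have h2 : 4 / 5 * κ = 4 / 5 * (K : ℝ) ^ 2 / z ^ 2 := by
      rw [hκ, div_pow, mul_div_assoc]
    rw [h2]
    refine div_le_div_of_nonneg_right ?_ (by positivity)
    have h3 : (19 / 20 * (K : ℝ)) ^ 2 = 361 / 400 * (K : ℝ) ^ 2 := by ring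
    have h4 : 0 ≤ (K : ℝ) ^ 2 := by positivity
    linarith
  refine le_trans ?_ hD2
  rw [abs_le]
  constructor <;> linarith

end Pool.Agent.Lib.MP_6b2d39_agHyU
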