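import Mathlib

set_option autoImplicit false

namespace Pool.Agent.Lib.MP_6b2d39_agHyU

private theorem tunK_floor (ℓ : ℝ) (hℓ : 1000 ≤ ℓ) :
    Real.exp (3 / 4 * ℓ - 1) ≤ (⌊Real.exp (3 / 4 * ℓ)⌋₊ : ℝ) := by
  have h1 := Nat.sub_one_lt_floor (Real.exp (3 / 4 * ℓ))
  have h2 : Real.exp (3 / 4 * ℓ) = Real.exp (3 / 4 * ℓ - 1) * Real.exp 1 := by
    rw [← Real.exp_add]
    congr 1
    ring
  have h3 : (2 : ℝ) ≤ Real.exp 1 := by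
    have := Real.add_one_le_exp (1 : ℝ)
    linarith
  have h4 : (1 : ℝ) ≤ Real.exp (3 / 4 * ℓ - 1) := by
    have := Real.add_one_le_exp (3 / 4 * ℓ - 1)
    linarith
  have h5 : Real.exp (3 / 4 * ℓ - 1) * 2 ≤ Real.exp (3 / 4 * ℓ - 1) * Real.exp 1 :=
    mul_le_mul_of_nonneg_left h3 (Real.exp_pos _).le
  linarith

private theorem tunK_big (ℓ : ℝ) (hℓ : 1000 ≤ ℓ) : (10 : ℝ) ^ 12 ≤ Real.exp (3 / 4 * ℓ - 1) := by
  have h3 : (2 : ℝ) ≤ Real.exp 1 := by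
    have := Real.add_one_le_exp (1 : ℝ)
    linarith
  have h1 : Real.exp (40 : ℕ) ≤ Real.exp (3 / 4 * ℓ - 1) := by
    apply Real.exp_le_exp.mpr
    push_cast
    linarith
  have h2 : (2 : ℝ) ^ 40 ≤ Real.exp (40 : ℕ) := by
    rw [← mul_one ((40 : ℕ) : ℝ), Real.exp_nat_mul]
    exact pow_le_pow_left₀ (by norm_num) h3 40
  have h4 : (10 : ℝ) ^ 12 ≤ 2 ^ 40 := by norm_num
  exact le_trans h4 (le_trans h2 h1)

private theorem tunK_core (q : ℕ) (ℓ L : ℝ) (hℓ : 1000 ≤ ℓ) (hq : (q : ℝ) = Real.exp ℓ)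
    (hL0 : 0 ≤ L) (hL : L ≤ 5 * (ℓ + 1)) :
    ∃ K : ℕ, (K : ℝ) ≤ Real.exp (3 / 4 * ℓ) ∧ 10 ^ 12 ≤ K ∧ 16 * K ^ 2 ≤ q ^ 2 + 2 ∧
      ((q ^ 2 + 2 + 2 * K : ℕ) : ℝ) ^ (37 / 100 : ℝ) ≤ K ∧
      ((q ^ 2 + 2 + 2 * K : ℕ) : ℝ) ≤ 11 / 10 * ((q ^ 2 + 2 : ℕ) : ℝ) ∧
      Real.exp (-(Real.log ((q ^ 2 + 2 + 2 * K : ℕ) : ℝ)) ^ 2 / 300) ≤
        Real.exp (-L ^ 2 / 3000) / 4 ∧
      Real.exp (-(Real.log ((q ^ 2 + 2 + 2 * K : ℕ) : ℝ)) ^ 2 / 300) ≤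
        1 / 100 * ((K : ℝ) / ((q ^ 2 + 2 : ℕ) : ℝ)) ^ 2 := by
  obtain ⟨K, hK⟩ : ∃ K : ℕ, K = ⌊Real.exp (3 / 4 * ℓ)⌋₊ := ⟨_, rfl⟩
  have hK1 : (K : ℝ) ≤ Real.exp (3 / 4 * ℓ) := by
    rw [hK]
    exact Nat.floor_le (Real.exp_pos _).le
  have hK2 : Real.exp (3 / 4 * ℓ - 1) ≤ (K : ℝ) := by
    rw [hK]
    exact tunK_floor ℓ hℓ
  have hK0 : (0 : ℝ) < K := lt_of_lt_of_le (Real.exp_pos _) hK2
  have hq2 : (q : ℝ) ^ 2 = Real.exp (2 * ℓ) := by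
    rw [hq, ← Real.exp_nat_mul]
    push_cast
    rfl
  have hzc : ((q ^ 2 + 2 : ℕ) : ℝ) = Real.exp (2 * ℓ) + 2 := by
    push_cast
    rw [hq2]
  have hZc : ((q ^ 2 + 2 + 2 * K : ℕ) : ℝ) = Real.exp (2 * ℓ) + 2 + 2 * K := by
    push_cast
    rw [hq2]
  have e2 : (2 : ℝ) ≤ Real.exp 1 := by
    have := Real.add_one_le_exp (1 : ℝ)
    linarith
  have hb : (1000 : ℝ) * Real.exp (3 / 4 * ℓ) ≤ Real.exp (2 * ℓ) := by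
    have h1 : Real.exp (2 * ℓ) = Real.exp (5 / 4 * ℓ) * Real.exp (3 / 4 * ℓ) := by
      rw [← Real.exp_add]
      congr 1
      ring
    rw [h1]
    refine mul_le_mul_of_nonneg_right ?_ (Real.exp_pos _).le
    have := Real.add_one_le_exp (5 / 4 * ℓ)
    linarith
  have h34 : (1 : ℝ) ≤ Real.exp (3 / 4 * ℓ) := Real.one_le_exp (by linarith)
  have hlogZ : 2 * ℓ ≤ Real.log ((q ^ 2 + 2 + 2 * K : ℕ) : ℝ) := by
    rw [hZc, Real.le_log_iff_exp_le (by positivity)]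
    linarith
  have hlogZ2 : 4 * ℓ ^ 2 ≤ (Real.log ((q ^ 2 + 2 + 2 * K : ℕ) : ℝ)) ^ 2 := by
    have := pow_le_pow_left₀ (by linarith : (0 : ℝ) ≤ 2 * ℓ) hlogZ 2
    calc 4 * ℓ ^ 2 = (2 * ℓ) ^ 2 := by ring
      _ ≤ _ := this
  refine ⟨K, hK1, ?_, ?_, ?_, ?_, ?_, ?_⟩
  · have := le_trans (tunK_big ℓ hℓ) hK2
    exact_mod_cast this
  · have h1 : (K : ℝ) ^ 2 ≤ Real.exp (3 / 2 * ℓ) := by
      calc (K : ℝ) ^ 2 ≤ (Real.exp (3 / 4 * ℓ)) ^ 2 := pow_le_pow_left₀ hK0.le hK1 2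
        _ = Real.exp (3 / 2 * ℓ) := by
          rw [← Real.exp_nat_mul]
          congr 1
          push_cast
          ring
    have h2 : (16 : ℝ) * Real.exp (3 / 2 * ℓ) ≤ Real.exp (2 * ℓ) := by
      have h3 : Real.exp (2 * ℓ) = Real.exp (1 / 2 * ℓ) * Real.exp (3 / 2 * ℓ) := by
        rw [← Real.exp_add]
        congr 1
        ring
      rw [h3]
      refine mul_le_mul_of_nonneg_right ?_ (Real.exp_pos _).le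
      have := Real.add_one_le_exp (1 / 2 * ℓ)
      linarith
    have h4 : (16 : ℝ) * (K : ℝ) ^ 2 ≤ (q : ℝ) ^ 2 + 2 := by
      rw [hq2]
      linarith
    exact_mod_cast h4
  · have h1 : ((q ^ 2 + 2 + 2 * K : ℕ) : ℝ) ≤ Real.exp (2 * ℓ + 1) := by
      rw [hZc, Real.exp_add]
      have h2 : Real.exp (2 * ℓ) * 2 ≤ Real.exp (2 * ℓ) * Real.exp 1 :=
        mul_le_mul_of_nonneg_left e2 (Real.exp_pos _).le
      linarith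
    calc ((q ^ 2 + 2 + 2 * K : ℕ) : ℝ) ^ (37 / 100 : ℝ)
        ≤ (Real.exp (2 * ℓ + 1)) ^ (37 / 100 : ℝ) :=
          Real.rpow_le_rpow (Nat.cast_nonneg _) h1 (by norm_num)
      _ = Real.exp ((2 * ℓ + 1) * (37 / 100)) := by rw [← Real.exp_mul]
      _ ≤ Real.exp (3 / 4 * ℓ - 1) := Real.exp_le_exp.mpr (by linarith)
      _ ≤ K := hK2
  · rw [hZc, hzc]
    linarith
  · have h4 : Real.exp (-2) ≤ 1 / 4 := by
      rw [Real.exp_neg, one_div]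
      refine inv_anti₀ (by norm_num) ?_
      calc (4 : ℝ) = 2 ^ 2 := by norm_num
        _ ≤ (Real.exp 1) ^ 2 := pow_le_pow_left₀ (by norm_num) e2 2
        _ = Real.exp 2 := by
          rw [← Real.exp_nat_mul]
          norm_num
    have hLs : L ^ 2 ≤ (5 * (ℓ + 1)) ^ 2 := pow_le_pow_left₀ hL0 hL 2
    have h5 : -(Real.log ((q ^ 2 + 2 + 2 * K : ℕ) : ℝ)) ^ 2 / 300 ≤ -L ^ 2 / 3000 + -2 := by
      have h6 : (5 * (ℓ + 1)) ^ 2 / 3000 + 2 ≤ 4 * ℓ ^ 2 / 300 := by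
        nlinarith
      have h7 : L ^ 2 / 3000 ≤ (5 * (ℓ + 1)) ^ 2 / 3000 :=
        div_le_div_of_nonneg_right hLs (by norm_num)
      have h8 : 4 * ℓ ^ 2 / 300 ≤ (Real.log ((q ^ 2 + 2 + 2 * K : ℕ) : ℝ)) ^ 2 / 300 :=
        div_le_div_of_nonneg_right hlogZ2 (by norm_num)
      rw [neg_div, neg_div]
      linarith
    calc Real.exp (-(Real.log ((q ^ 2 + 2 + 2 * K : ℕ) : ℝ)) ^ 2 / 300)
        ≤ Real.exp (-L ^ 2 / 3000 + -2) := Real.exp_le_exp.mpr h5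
      _ = Real.exp (-L ^ 2 / 3000) * Real.exp (-2) := Real.exp_add _ _
      _ ≤ Real.exp (-L ^ 2 / 3000) * (1 / 4) :=
          mul_le_mul_of_nonneg_left h4 (Real.exp_pos _).le
      _ = _ := by ring
  · have h1 : Real.exp (-(5 / 4) * ℓ - 2) ≤ (K : ℝ) / ((q ^ 2 + 2 : ℕ) : ℝ) := by
      rw [hzc, le_div_iff₀ (by positivity)]
      have h2 : Real.exp (2 * ℓ) + 2 ≤ Real.exp (2 * ℓ + 1) := by
        rw [Real.exp_add]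
        have h2 : Real.exp (2 * ℓ) * 2 ≤ Real.exp (2 * ℓ) * Real.exp 1 :=
          mul_le_mul_of_nonneg_left e2 (Real.exp_pos _).le
        linarith
      calc Real.exp (-(5 / 4) * ℓ - 2) * (Real.exp (2 * ℓ) + 2)
          ≤ Real.exp (-(5 / 4) * ℓ - 2) * Real.exp (2 * ℓ + 1) :=
            mul_le_mul_of_nonneg_left h2 (Real.exp_pos _).le
        _ = Real.exp (3 / 4 * ℓ - 1) := by
            rw [← Real.exp_add]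
            congr 1
            ring
        _ ≤ K := hK2
    have h2 : Real.exp (2 * (-(5 / 4) * ℓ - 2)) ≤ ((K : ℝ) / ((q ^ 2 + 2 : ℕ) : ℝ)) ^ 2 := by
      calc Real.exp (2 * (-(5 / 4) * ℓ - 2)) = (Real.exp (-(5 / 4) * ℓ - 2)) ^ 2 := by
            rw [← Real.exp_nat_mul]
            push_cast
            rfl
        _ ≤ _ := pow_le_pow_left₀ (Real.exp_pos _).le h1 2
    have h3 : Real.exp (-7) ≤ 1 / 100 := by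
      rw [Real.exp_neg, one_div]
      refine inv_anti₀ (by norm_num) ?_
      calc (100 : ℝ) ≤ 2 ^ 7 := by norm_num
        _ ≤ (Real.exp 1) ^ 7 := pow_le_pow_left₀ (by norm_num) e2 7
        _ = Real.exp 7 := by
          rw [← Real.exp_nat_mul]
          norm_num
    have h4 : -(Real.log ((q ^ 2 + 2 + 2 * K : ℕ) : ℝ)) ^ 2 / 300 ≤
        -7 + 2 * (-(5 / 4) * ℓ - 2) := by
      have h8 : 4 * ℓ ^ 2 / 300 ≤ (Real.log ((q ^ 2 + 2 + 2 * K : ℕ) : ℝ)) ^ 2 / 300 :=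
        div_le_div_of_nonneg_right hlogZ2 (by norm_num)
      have h9 : 7 + 4 + 5 / 2 * ℓ ≤ 4 * ℓ ^ 2 / 300 := by nlinarith
      rw [neg_div]
      linarith
    calc Real.exp (-(Real.log ((q ^ 2 + 2 + 2 * K : ℕ) : ℝ)) ^ 2 / 300)
        ≤ Real.exp (-7 + 2 * (-(5 / 4) * ℓ - 2)) := Real.exp_le_exp.mpr h4
      _ = Real.exp (-7) * Real.exp (2 * (-(5 / 4) * ℓ - 2)) := Real.exp_add _ _
      _ ≤ 1 / 100 * ((K : ℝ) / ((q ^ 2 + 2 : ℕ) : ℝ)) ^ 2 :=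
          mul_le_mul h3 h2 (Real.exp_pos _).le (by norm_num)

/-- HU8. the choice of the integers: `K = ⌊q ^ (3 / 4)⌋₊`, `z0 = q ^ 2 + 2`, `Z = z0 + 2 K`,
`q ≥ n ^ (1 / 5) / 2` large. -/
theorem tun_k (Z0 : ℕ) : ∃ N0 : ℕ, ∀ n q : ℕ, N0 ≤ n → (n : ℝ) ^ (1 / 5 : ℝ) / 2 ≤ q →
    ∃ K : ℕ, (K : ℝ) ≤ (q : ℝ) ^ (3 / 4 : ℝ) ∧ 10 ^ 12 ≤ K ∧ 16 * K ^ 2 ≤ q ^ 2 + 2 ∧
      Z0 ≤ q ^ 2 + 2 + 2 * K ∧
      ((q ^ 2 + 2 + 2 * K : ℕ) : ℝ) ^ (37 / 100 : ℝ) ≤ K ∧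
      ((q ^ 2 + 2 + 2 * K : ℕ) : ℝ) ≤ 11 / 10 * ((q ^ 2 + 2 : ℕ) : ℝ) ∧
      Real.exp (-(Real.log ((q ^ 2 + 2 + 2 * K : ℕ) : ℝ)) ^ 2 / 300) ≤
        Real.exp (-(Real.log n) ^ 2 / 3000) / 4 ∧
      Real.exp (-(Real.log ((q ^ 2 + 2 + 2 * K : ℕ) : ℝ)) ^ 2 / 300) ≤
        1 / 100 * ((K : ℝ) / ((q ^ 2 + 2 : ℕ) : ℝ)) ^ 2 := by
  obtain ⟨m, hm1, hm2⟩ : ∃ m : ℝ, Real.exp 1000 ≤ m ∧ (Z0 : ℝ) ≤ m :=
    ⟨max (Real.exp 1000) Z0, le_max_left _ _, le_max_right _ _⟩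
  have hm0 : 0 < m := lt_of_lt_of_le (Real.exp_pos _) hm1
  have hmone : 1 ≤ m := le_trans (Real.one_le_exp (by norm_num)) hm1
  refine ⟨⌈(2 * m) ^ 5⌉₊, fun n q hn hq => ?_⟩
  have hn' : (2 * m) ^ 5 ≤ (n : ℝ) := le_trans (Nat.le_ceil _) (by exact_mod_cast hn)
  have hmn : 2 * m ≤ (n : ℝ) ^ (1 / 5 : ℝ) := by
    calc 2 * m = ((2 * m) ^ 5) ^ (1 / 5 : ℝ) := by
          rw [← Real.rpow_natCast, ← Real.rpow_mul (by positivity)]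
          norm_num
      _ ≤ _ := Real.rpow_le_rpow (by positivity) hn' (by norm_num)
  have hmq : m ≤ q := by linarith
  have hq0 : (0 : ℝ) < q := lt_of_lt_of_le hm0 hmq
  obtain ⟨ℓ, hℓd⟩ : ∃ ℓ : ℝ, ℓ = Real.log q := ⟨_, rfl⟩
  have hqe : (q : ℝ) = Real.exp ℓ := by rw [hℓd, Real.exp_log hq0]
  have hℓ : 1000 ≤ ℓ := by
    rw [hℓd, Real.le_log_iff_exp_le hq0]
    exact le_trans hm1 hmq
  have hZ0q : (Z0 : ℝ) ≤ q := le_trans hm2 hmq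
  have hn1 : (1 : ℝ) ≤ n := le_trans (one_le_pow₀ (by linarith)) hn'
  have hn0 : (0 : ℝ) < n := lt_of_lt_of_le one_pos hn1
  have hlog : Real.log n ≤ 5 * (ℓ + 1) := by
    have h1 : (n : ℝ) ^ (1 / 5 : ℝ) ≤ 2 * q := by linarith
    have h2 := Real.log_le_log (Real.rpow_pos_of_pos hn0 _) h1
    rw [Real.log_rpow hn0, Real.log_mul (by norm_num) hq0.ne', ← hℓd] at h2
    have h3 := Real.log_two_lt_d9
    linarith
  obtain ⟨K, hK1, hK2, hK3, hK4, hK5, hK6, hK7⟩ :=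
    tunK_core q ℓ (Real.log n) hℓ hqe (Real.log_nonneg hn1) hlog
  refine ⟨K, ?_, hK2, hK3, ?_, hK4, hK5, hK6, hK7⟩
  · rw [hqe, ← Real.exp_mul, mul_comm ℓ]
    exact hK1
  · have h1 : Z0 ≤ q := by exact_mod_cast hZ0q
    have h2 : q ≤ q ^ 2 := Nat.le_self_pow (by norm_num) q
    omega

end Pool.Agent.Lib.MP_6b2d39_agHyU
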