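import Mathlib

set_option autoImplicit false

namespace Pool.Agent.Lib.MP_6b2d39_agHyU

/-- the inequality between `sf ^ 2 / n` and `Z` -/
private theorem tun_s_num {t r w q K Z z0 : ℝ} (ht : 1000 ≤ t) (hq : q = t ^ 2)
    (hr : t ^ 5 ≤ r) (hK : t ≤ K) (hw : w ≤ 2 * q) (hz : z0 = q ^ 2 + 2)
    (hZ : z0 ≤ Z) :
    2 * w / r + 1 / r ^ 2 ≤ Z * (1 / 100 * (K / z0) ^ 2) := by
  have ht0 : 0 < t := by linarith
  have h5 : 0 < t ^ 5 := by positivity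
  have hr0 : 0 < r := by linarith
  have hr1 : 1 ≤ r := by
    have : (1 : ℝ) ≤ t ^ 5 := one_le_pow₀ (by linarith)
    linarith
  have hz0 : 0 < z0 := by
    rw [hz]
    positivity
  have hq1 : 1 ≤ q := by
    rw [hq]
    nlinarith
  have h1 : 2 * w / r + 1 / r ^ 2 ≤ 5 * q / r := by
    have h2 : 1 / r ^ 2 ≤ 1 / r := by
      apply one_div_le_one_div_of_le hr0
      nlinarith
    have h3 : 2 * w / r + 1 / r = (2 * w + 1) / r := by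
      rw [add_div]
    have h4 : (2 * w + 1) / r ≤ 5 * q / r := by
      apply div_le_div_of_nonneg_right _ hr0.le
      linarith
    linarith
  have h6 : 5 * q / r ≤ 5 / t ^ 3 := by
    rw [div_le_div_iff₀ hr0 (by positivity), hq]
    have : 5 * t ^ 2 * t ^ 3 = 5 * t ^ 5 := by ring
    rw [this]
    linarith
  have h7 : 5 / t ^ 3 ≤ 1 / (101 * t ^ 2) := by
    rw [div_le_div_iff₀ (by positivity) (by positivity)]
    have : (0 : ℝ) ≤ t ^ 2 * (t - 505) := by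
      apply mul_nonneg (by positivity)
      linarith
    nlinarith
  have h8 : 1 / (101 * t ^ 2) ≤ t ^ 2 / (100 * z0) := by
    rw [div_le_div_iff₀ (by positivity) (by positivity), hz, hq]
    have : (1 : ℝ) ≤ t ^ 2 := by nlinarith
    have h9 : (1000 : ℝ) ≤ t ^ 4 := by
      have : t ^ 4 = t ^ 2 * t ^ 2 := by ring
      rw [this]
      nlinarith
    nlinarith
  have h10 : t ^ 2 / (100 * z0) ≤ Z * (1 / 100 * (K / z0) ^ 2) := by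
    have h11 : Z * (1 / 100 * (K / z0) ^ 2) = (Z * K ^ 2) / (100 * z0 ^ 2) := by
      field_simp
    rw [h11, div_le_div_iff₀ (by positivity) (by positivity)]
    have h12 : t ^ 2 ≤ K ^ 2 := pow_le_pow_left₀ ht0.le hK 2
    have h13 : z0 * t ^ 2 ≤ Z * K ^ 2 :=
      mul_le_mul hZ h12 (by positivity) (by linarith)
    have h14 : (0 : ℝ) ≤ 100 * z0 := by positivity
    have h15 := mul_le_mul_of_nonneg_right h13 h14
    calc t ^ 2 * (100 * z0 ^ 2) = z0 * t ^ 2 * (100 * z0) := by ring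
      _ ≤ Z * K ^ 2 * (100 * z0) := h15
  linarith

/-- HU9. `sf = ⌈√n √Z⌉₊`: `sf ^ 2 / n` lies between `Z` and `Z + 3 q / √n`
(`2 √Z + 1 / √n ≤ 3 q`), and `3 q / √n / Z ≤ 3 q ^ (- 7 / 2) ≤ 1 / 100 (K / z0) ^ 2` as
`√n ≥ q ^ (5 / 2)` (`K ≥ Z ^ (37 / 100)`). -/
theorem tun_s : ∃ N0 : ℕ, ∀ n q K : ℕ, N0 ≤ n → (n : ℝ) ^ (1 / 5 : ℝ) / 2 ≤ q →
    (q : ℝ) ≤ (n : ℝ) ^ (1 / 5 : ℝ) → (K : ℝ) ≤ (q : ℝ) ^ (3 / 4 : ℝ) → 1 ≤ K →
    ((q ^ 2 + 2 + 2 * K : ℕ) : ℝ) ^ (37 / 100 : ℝ) ≤ K →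
    ∃ sf : ℕ, 1 ≤ sf ∧ ((q ^ 2 + 2 + 2 * K : ℕ) : ℝ) ≤ (sf : ℝ) ^ 2 / n ∧
      (sf : ℝ) ^ 2 / n ≤ ((q ^ 2 + 2 + 2 * K : ℕ) : ℝ) *
        (1 + 1 / 100 * ((K : ℝ) / ((q ^ 2 + 2 : ℕ) : ℝ)) ^ 2) ∧
      (sf : ℝ) / √n ≤ (q : ℝ) + 1 / q + 3 / 2 * (q : ℝ) ^ (-(1 / 4) : ℝ) := by
  refine ⟨(2 * 10 ^ 6) ^ 5, fun n q K hn hq1 hq2 hK1 hK0 hK2 => ?_⟩
  have hn0 : (0 : ℝ) ≤ n := Nat.cast_nonneg n
  obtain ⟨p, hp⟩ : ∃ p : ℝ, p = (n : ℝ) ^ (1 / 5 : ℝ) := ⟨_, rfl⟩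
  have hp0 : 0 ≤ p := by
    rw [hp]
    exact Real.rpow_nonneg hn0 _
  have hp5 : p ^ 5 = n := by
    rw [hp, ← Real.rpow_natCast, ← Real.rpow_mul hn0]
    norm_num
  have hnR : ((2 : ℝ) * 10 ^ 6) ^ 5 ≤ n := by exact_mod_cast hn
  have hp6 : (2 : ℝ) * 10 ^ 6 ≤ p := by
    rw [← hp5] at hnR
    exact (pow_le_pow_iff_left₀ (by norm_num) hp0 (by norm_num)).1 hnR
  rw [← hp] at hq1 hq2
  have hqb : (10 : ℝ) ^ 6 ≤ q := by linarith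
  have hq0 : (0 : ℝ) < q := by linarith [show (0 : ℝ) < 10 ^ 6 by norm_num]
  have hq1' : (1 : ℝ) ≤ q := by linarith [show (1 : ℝ) ≤ 10 ^ 6 by norm_num]
  have hq5 : (q : ℝ) ^ 5 ≤ n := by
    rw [← hp5]
    exact pow_le_pow_left₀ hq0.le hq2 5
  have hnpos : (0 : ℝ) < n := by
    have : (0 : ℝ) < (q : ℝ) ^ 5 := by positivity
    linarith
  obtain ⟨t, ht⟩ : ∃ t : ℝ, t = √(q : ℝ) := ⟨_, rfl⟩
  have ht2 : (q : ℝ) = t ^ 2 := by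
    rw [ht, Real.sq_sqrt hq0.le]
  have ht3 : 1000 ≤ t := by
    rw [ht]
    apply Real.le_sqrt_of_sq_le
    linarith [show (1000 : ℝ) ^ 2 = 10 ^ 6 by norm_num]
  have ht0 : 0 < t := by linarith
  have hr : t ^ 5 ≤ √(n : ℝ) := by
    apply Real.le_sqrt_of_sq_le
    have : (t ^ 5) ^ 2 = (q : ℝ) ^ 5 := by
      rw [ht2]
      ring
    rw [this]
    exact hq5
  have hr0 : 0 < √(n : ℝ) := Real.sqrt_pos.2 hnpos
  have hrr : √(n : ℝ) ^ 2 = n := Real.sq_sqrt hn0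
  -- the powers of `q`
  have hZq : (q : ℝ) ^ 2 ≤ ((q ^ 2 + 2 + 2 * K : ℕ) : ℝ) := by
    push_cast
    have : (0 : ℝ) ≤ K := Nat.cast_nonneg K
    linarith
  have hKt : t ≤ K := by
    have h1 : t ≤ (q : ℝ) ^ (74 / 100 : ℝ) := by
      rw [ht, Real.sqrt_eq_rpow]
      exact Real.rpow_le_rpow_of_exponent_le hq1' (by norm_num)
    have h2 : (q : ℝ) ^ (74 / 100 : ℝ) = ((q : ℝ) ^ 2) ^ (37 / 100 : ℝ) := by
      rw [← Real.rpow_natCast, ← Real.rpow_mul hq0.le]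
      norm_num
    have h3 : ((q : ℝ) ^ 2) ^ (37 / 100 : ℝ) ≤
        ((q ^ 2 + 2 + 2 * K : ℕ) : ℝ) ^ (37 / 100 : ℝ) :=
      Real.rpow_le_rpow (by positivity) hZq (by norm_num)
    linarith
  have hu : (K : ℝ) / q ≤ (q : ℝ) ^ (-(1 / 4) : ℝ) := by
    rw [div_le_iff₀ hq0]
    have h1 : (q : ℝ) ^ (-(1 / 4) : ℝ) * q = (q : ℝ) ^ (3 / 4 : ℝ) := by
      have h2 : (q : ℝ) ^ (-(1 / 4) : ℝ) * q = (q : ℝ) ^ (-(1 / 4) : ℝ) * (q : ℝ) ^ (1 : ℝ) := by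
        rw [Real.rpow_one]
      rw [h2, ← Real.rpow_add hq0]
      norm_num
    rw [h1]
    exact hK1
  have hu2 : 1 / t ≤ (q : ℝ) ^ (-(1 / 4) : ℝ) := by
    have h1 : 1 / t = (q : ℝ) ^ (-(1 / 2) : ℝ) := by
      rw [Real.rpow_neg hq0.le, ← Real.sqrt_eq_rpow, ← ht, one_div]
    rw [h1]
    exact Real.rpow_le_rpow_of_exponent_le hq1' (by norm_num)
  have hKq : (K : ℝ) ≤ q := by
    have h1 : (q : ℝ) ^ (-(1 / 4) : ℝ) ≤ 1 :=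
      Real.rpow_le_one_of_one_le_of_nonpos hq1' (by norm_num)
    have h2 := hu.trans h1
    rw [div_le_iff₀ hq0] at h2
    linarith
  -- the square root of `Z`
  obtain ⟨Z, hZ⟩ : ∃ Z : ℝ, Z = ((q ^ 2 + 2 + 2 * K : ℕ) : ℝ) := ⟨_, rfl⟩
  have hZ' : Z = (q : ℝ) ^ 2 + 2 + 2 * K := by
    rw [hZ]
    push_cast
    rfl
  have hK00 : (0 : ℝ) ≤ K := Nat.cast_nonneg K
  have hZ0 : 0 < Z := by
    rw [hZ']
    positivity
  obtain ⟨w, hw⟩ : ∃ w : ℝ, w = √Z := ⟨_, rfl⟩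
  have hw0 : 0 < w := by
    rw [hw]
    exact Real.sqrt_pos.2 hZ0
  have hw2 : w ^ 2 = Z := by
    rw [hw]
    exact Real.sq_sqrt hZ0.le
  have hw3 : w ≤ (q : ℝ) + (1 + K) / q := by
    rw [hw]
    apply Real.sqrt_le_iff.2
    refine ⟨by positivity, ?_⟩
    have h1 : ((q : ℝ) + (1 + K) / q) ^ 2 = (q : ℝ) ^ 2 + 2 * (1 + K) + ((1 + K) / q) ^ 2 := by
      field_simp
      ring
    rw [h1, hZ']
    have : (0 : ℝ) ≤ ((1 + K) / q) ^ 2 := by positivity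
    linarith
  have hw4 : w ≤ 2 * q := by
    have h1 : ((1 : ℝ) + K) / q ≤ 2 := by
      rw [div_le_iff₀ hq0]
      linarith
    have h2 : (10 : ℝ) ^ 6 = 1000000 := by norm_num
    linarith
  rw [← hZ]
  -- the choice
  obtain ⟨r, hrdef⟩ : ∃ r : ℝ, r = √(n : ℝ) := ⟨_, rfl⟩
  rw [← hrdef] at hr hr0 hrr ⊢
  have h1 : r * w ≤ (⌈r * w⌉₊ : ℝ) := Nat.le_ceil _
  have h2 : (⌈r * w⌉₊ : ℝ) < r * w + 1 := Nat.ceil_lt_add_one (by positivity)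
  refine ⟨⌈r * w⌉₊, Nat.one_le_ceil_iff.2 (by positivity), ?_, ?_, ?_⟩
  · rw [le_div_iff₀ hnpos, ← hrr, ← hw2]
    have h3 := pow_le_pow_left₀ (by positivity) h1 2
    calc w ^ 2 * r ^ 2 = (r * w) ^ 2 := by ring
      _ ≤ _ := h3
  · have h3 : ((⌈r * w⌉₊ : ℝ)) ^ 2 / n ≤ Z + (2 * w / r + 1 / r ^ 2) := by
      rw [div_le_iff₀ hnpos, ← hrr]
      have h4 : (Z + (2 * w / r + 1 / r ^ 2)) * r ^ 2 = (r * w + 1) ^ 2 := by
        rw [← hw2]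
        field_simp
        ring
      rw [h4]
      exact pow_le_pow_left₀ (Nat.cast_nonneg _) h2.le 2
    have h5 := tun_s_num (t := t) (r := r) (w := w) (q := q) (K := K) (Z := Z)
      (z0 := ((q ^ 2 + 2 : ℕ) : ℝ)) ht3 ht2 hr hKt hw4 (by push_cast; rfl)
      (by rw [hZ']; push_cast; linarith)
    have h6 : Z * (1 + 1 / 100 * ((K : ℝ) / ((q ^ 2 + 2 : ℕ) : ℝ)) ^ 2) =
        Z + Z * (1 / 100 * ((K : ℝ) / ((q ^ 2 + 2 : ℕ) : ℝ)) ^ 2) := by ring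
    rw [h6]
    linarith
  · have h3 : (⌈r * w⌉₊ : ℝ) / r ≤ w + 1 / r := by
      rw [div_le_iff₀ hr0]
      have h4 : (w + 1 / r) * r = r * w + 1 := by
        field_simp
      rw [h4]
      exact h2.le
    have h5 : 1 / r ≤ 1 / 2 * (1 / t) := by
      have h6 : 2 * t ≤ r := by
        have h7 : 2 * t ≤ t ^ 5 := by
          have h8 : (2 : ℝ) ≤ t ^ 4 := by
            have h9 : t ^ 4 = t ^ 2 * t ^ 2 := by ring
            have h10 : (1000 : ℝ) ≤ t ^ 2 := by nlinarith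
            rw [h9]
            nlinarith
          calc 2 * t ≤ t ^ 4 * t := mul_le_mul_of_nonneg_right h8 ht0.le
            _ = t ^ 5 := by ring
        linarith
      calc 1 / r ≤ 1 / (2 * t) := one_div_le_one_div_of_le (by positivity) h6
        _ = 1 / 2 * (1 / t) := by
          field_simp
    have h11 : ((1 : ℝ) + K) / q = 1 / q + K / q := add_div _ _ _
    linarith

end Pool.Agent.Lib.MP_6b2d39_agHyU
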