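import Pool.Agent.Lib.MP_6b2d39_agHyU.SegU
import Pool.Agent.Lib.MP_6b2d39_agHyU.TunK
import Pool.Agent.Lib.MP_6b2d39_agHyU.TunS
import Pool.Agent.Lib.MP_6b2d39_agHyU.TunE
import Pool.Agent.Lib.MP_6b2d39_agHx.WdR
import Pool.Agent.Lib.MP_6b2d39_agHx.BlockHi
import Pool.Agent.Lib.MP_6b2d39_agHx.BlockLo
import Pool.Agent.Lib.MP_6b2d39_agHx.Select

set_option autoImplicit false

namespace Pool.Agent.Lib.MP_6b2d39_agHyU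

open Pool.Agent.Lib.MP_6b2d39_agHx

/-- HU11. as `exists_word` (`Hx/Word.lean`): `tun_k`, `tun_s`, `seg_u` with `Z = q ^ 2 + 2 + 2 K`
(`Λ = 2 w`, `Wd.even`), `D = K - w`, `G = log (sf / √n) - log y + η - v0`,
`H = (K / 163840 / Z) ^ 2` (`D / z0 ^ 2 ≤ H` as `K ≥ 10 ^ 12`, `Z ≤ 11 / 10 z0`), `Wd.range`
(`K * 2 w / z0 ^ 2 + 2 η ≤ 1 / 8 (K / z0) ^ 2`), `tun_e`, `block_hi`, `block_lo`, `select`. -/
theorem word_u : ∃ N0 : ℕ, ∀ n q : ℕ, N0 ≤ n → (n : ℝ) ^ (1 / 5 : ℝ) / 2 ≤ q →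
    (q : ℝ) ≤ (n : ℝ) ^ (1 / 5 : ℝ) → ∃ (K sf : ℕ) (η V : ℝ), 1 ≤ sf ∧
      16 * K ^ 2 ≤ q ^ 2 + 2 ∧ 0 ≤ η ∧ 4 * η ≤ Real.exp (-(Real.log n) ^ 2 / 3000) ∧
      (sf : ℝ) / √n ≤ (q : ℝ) + 1 / q + 3 / 2 * (q : ℝ) ^ (-(1 / 4) : ℝ) ∧
      Wd K (q ^ 2 + 2) (q ^ 2 + 2 + 2 * K) V ∧
      Real.log ((sf : ℝ) / √n) - Real.log ((q : ℝ) + 1 / q) ≤ V ∧
      V ≤ Real.log ((sf : ℝ) / √n) - Real.log ((q : ℝ) + 1 / q) + 2 * η := by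
  obtain ⟨Z0, hseg⟩ := seg_u
  obtain ⟨N1, hk⟩ := tun_k Z0
  obtain ⟨N2, hs⟩ := tun_s
  refine ⟨max (max N1 N2) 1, ?_⟩
  intro n q hn hq1 hq2
  have hn1 : N1 ≤ n := le_trans (le_trans (le_max_left _ _) (le_max_left _ _)) hn
  have hn2 : N2 ≤ n := le_trans (le_trans (le_max_right _ _) (le_max_left _ _)) hn
  have hn3 : 1 ≤ n := le_trans (le_max_right _ _) hn
  obtain ⟨K, hK1, hK2, hK3, hK4, hK5, hK6, hK7, hK8⟩ := hk n q hn1 hq1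
  have hK0 : 1 ≤ K := le_trans (by norm_num) hK2
  obtain ⟨sf, hs0, hs1, hs2, hs3⟩ := hs n q K hn2 hq1 hq2 hK1 hK0 hK5
  have hq0 : 1 ≤ q := by
    rcases Nat.eq_zero_or_pos q with h | h
    · subst h
      rw [Nat.cast_zero, Real.zero_rpow (by norm_num)] at hK1
      have : (1 : ℝ) ≤ K := by exact_mod_cast hK0
      linarith
    · exact h
  obtain ⟨Λ, hΛ, hC⟩ := hseg (q ^ 2 + 2 + 2 * K) K hK4 hK5
  obtain ⟨z0, hz0⟩ : ∃ z0, z0 = q ^ 2 + 2 := ⟨_, rfl⟩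
  obtain ⟨η, hη⟩ : ∃ η : ℝ, η = Real.exp (-(Real.log ((q ^ 2 + 2 + 2 * K : ℕ) : ℝ)) ^ 2 / 300) :=
    ⟨_, rfl⟩
  have hη0 : 0 ≤ η := by rw [hη]; exact (Real.exp_pos _).le
  have hKR : (10 : ℝ) ^ 12 ≤ K := by exact_mod_cast hK2
  have hz16K : 16 * K ^ 2 ≤ z0 := by rw [hz0]; exact hK3
  have hz01 : 1 ≤ z0 := by rw [hz0]; omega
  have hz0R : (0 : ℝ) < z0 := by exact_mod_cast (by omega : 0 < z0)
  have hKz : K ≤ z0 := by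
    have : K ≤ K ^ 2 := by
      rw [sq]
      exact Nat.le_mul_of_pos_left K (by omega)
    omega
  -- the parity
  have hΛK : Λ ≤ K := by
    have : (Λ : ℝ) ≤ K := by linarith
    exact_mod_cast this
  obtain ⟨w, hw⟩ : ∃ w, Λ = 2 * w := by
    obtain ⟨v0, hv0⟩ := hC (q ^ 2 + 2 + 2 * K - Λ) (by omega) (by omega)
    obtain ⟨v, hv, -⟩ := hv0 0 le_rfl (by positivity)
    obtain ⟨w, hw⟩ := hv.even
    exact ⟨w, by omega⟩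
  subst hw
  have hwR : 2 * (w : ℝ) ≤ K / 10 := by
    have : ((2 * w : ℕ) : ℝ) = 2 * (w : ℝ) := by push_cast; ring
    rw [← this]; exact hΛ
  obtain ⟨D, hD⟩ : ∃ D, K = D + w := ⟨K - w, by omega⟩
  have hDK : D ≤ K := by omega
  have hzn' : z0 + 2 * D + 2 * w = q ^ 2 + 2 + 2 * K := by omega
  obtain ⟨v0, hv0⟩ := hC (z0 + 2 * D) (by omega) (by omega)
  -- the range of `v0`
  have hrange : |2 * v0 - Real.log (((q ^ 2 + 2 + 2 * K : ℕ) : ℝ) /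
      ((q ^ 2 + 2 + 2 * D : ℕ) : ℝ))| ≤ 1 / 8 * ((K : ℝ) / ((q ^ 2 + 2 : ℕ) : ℝ)) ^ 2 := by
    rw [← hη] at hv0 hK8
    rw [← hz0] at hK8 ⊢
    obtain ⟨v, hv, hv'⟩ := hv0 0 le_rfl (by positivity)
    have hr := hv.range hz01 (by omega) (by omega)
    have e0 : (((z0 + 2 * D + 2 * w : ℕ) : ℝ) - ((z0 + 2 * D : ℕ) : ℝ)) = 2 * w := by
      push_cast; ring
    have h1 : (K : ℝ) * (2 * w) / (z0 : ℝ) ^ 2 ≤ 1 / 10 * ((K : ℝ) / (z0 : ℝ)) ^ 2 := by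
      rw [div_pow, ← mul_div_assoc]
      apply div_le_div_of_nonneg_right _ (by positivity)
      have h2 : (K : ℝ) * (2 * w) ≤ K * (K / 10) := by gcongr
      linarith
    rw [e0, hzn'] at hr
    have h5 := hr.trans h1
    have h6 : |v - v0| ≤ η := by simpa using hv'
    have e1 : z0 + 2 * K = q ^ 2 + 2 + 2 * K := by omega
    rw [e1]
    have hκ0 : 0 ≤ ((K : ℝ) / (z0 : ℝ)) ^ 2 := by positivity
    rw [abs_le] at h5 h6 ⊢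
    constructor <;> linarith [h5.1, h5.2, h6.1, h6.2]
  have hE := tun_e (v0 := v0) (η := η) hn3 hq0 (by omega) hK3 hD hwR hs0 hs1 hs2 hrange hη0
    (by rw [hη]; exact hK8)
  obtain ⟨hE1, hD40⟩ := hE
  rw [← hz0] at hE1
  have hz16 : 16 * D ^ 2 ≤ z0 := by
    have : D ^ 2 ≤ K ^ 2 := Nat.pow_le_pow_left hDK 2
    omega
  obtain ⟨G, hG⟩ : ∃ G : ℝ, G = Real.log ((sf : ℝ) / √n) - Real.log ((q : ℝ) + 1 / q) + η - v0 :=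
    ⟨_, rfl⟩
  rw [← hG] at hE1
  have hE' := abs_le.1 hE1
  have hbh := block_hi hD40 hz16
  have hbl := block_lo hD40 hz16
  have g1 : G ≤ Real.log (1 + (D : ℝ) / ((z0 : ℝ) + 1)) := by
    linarith [hE'.1, hE'.2]
  have g2 : Real.log (1 + (D : ℝ) / ((z0 : ℝ) + ((D - 1 : ℕ) : ℝ))) ≤ G := by
    linarith [hE'.1, hE'.2]
  have hH : (D : ℝ) / (z0 : ℝ) ^ 2 ≤ ((K : ℝ) / 163840 / ((q ^ 2 + 2 + 2 * K : ℕ) : ℝ)) ^ 2 := by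
    obtain ⟨Z, hZ⟩ : ∃ Z : ℝ, Z = ((q ^ 2 + 2 + 2 * K : ℕ) : ℝ) := ⟨_, rfl⟩
    rw [hz0, ← hZ]
    rw [← hZ] at hK6
    rw [hz0] at hz0R
    obtain ⟨y, hy⟩ : ∃ y : ℝ, y = ((q ^ 2 + 2 : ℕ) : ℝ) := ⟨_, rfl⟩
    rw [← hy] at hK6 hz0R ⊢
    have hZ0 : 0 < Z := by
      rw [hZ]
      exact_mod_cast (by omega : 0 < q ^ 2 + 2 + 2 * K)
    have hDR : (D : ℝ) ≤ K := by exact_mod_cast hDK
    have hZ2 : Z ^ 2 ≤ (11 / 10 * y) ^ 2 := by gcongr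
    rw [div_div, div_pow, div_le_div_iff₀ (by positivity) (by positivity)]
    calc (D : ℝ) * (163840 * Z) ^ 2 ≤ K * (163840 ^ 2 * (11 / 10 * y) ^ 2) := by
          rw [mul_pow]
          gcongr
      _ = K * (163840 ^ 2 * (121 / 100)) * y ^ 2 := by ring
      _ ≤ K * K * y ^ 2 := by
          gcongr
          linarith
      _ = (K : ℝ) ^ 2 * y ^ 2 := by ring
  obtain ⟨p, hp1, hpD, hpG, hpG'⟩ := select (by omega : 2 ≤ D) hz01 hH g1 g2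
  obtain ⟨v, hv, hvt⟩ := hv0 (G - Real.log (1 + (D : ℝ) / ((z0 : ℝ) + p))) (by linarith)
    (by linarith)
  rw [← hη] at hvt hK7
  refine ⟨K, sf, η, Real.log (1 + (D : ℝ) / ((z0 : ℝ) + p)) + v, hs0, hK3, hη0, ?_, hs3, ?_, ?_, ?_⟩
  · linarith
  · rw [← hzn', ← hz0]
    exact Wd.cons D p hp1 hpD hDK hv
  · have := (abs_le.1 hvt).1
    linarith
  · have := (abs_le.1 hvt).2
    linarith

end Pool.Agent.Lib.MP_6b2d39_agHyU
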